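import Pool.Agent.Lib.H65E.Final

/-!
# Almost all primes have no early and few E-irregular indices (MP_fb7e93_nt, Q1, partial result)

`eul n` is the Euler number `E_{2n}`: `E_0 = 1`, `∑_{k ≤ n} C(2n, 2k) E_{2k} = 0` for `n ≥ 1` (`Pool/Agent/Lib/H65E/Basic.lean`);
`irr p m` is the number of the `n`, `1 ≤ n ≤ m`, with `p ∣ E_{2n}` (`Pool/Agent/Lib/H65E/Main.lean`).

Proof: `E_{2n}` is an odd integer with `|E_{2n}| ≤ (2n)!`, so it has at most `2n log (2n) / log y` prime factors larger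
than `y` (`H65E.pairs_ncard`: at most `m (m + 1) log (2m) / log y` pairs `(p, n)`, `p > y`, `n ≤ m`, `p ∣ E_{2n}`). Sum
over `n` and over dyadic ranges, and compare with Chebyshev's lower bound for the number of primes.
-/

set_option autoImplicit false

namespace Pool.Agent.Results.MP_fb7e93_nt.EarlyEulerNumbers

open Filter Topology H65E

/-- `eul` satisfies the recurrence of the Euler numbers, and for almost all primes `p`, for all `m` with `2 ≤ 2m ≤ p`: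
`p` divides at most `m ^ 2 (log p) ^ 3 / p` of the numbers `E_2, E_4, …, E_{2m}`, and none of them if
`m ^ 2 (log p) ^ 2 < p`, i.e. `m < p ^ (1/2) / log p`. -/
theorem result :
    (eul 0 = 1 ∧ ∀ n : ℕ, n ≠ 0 →
      ∑ k ∈ Finset.range (n + 1), ((2 * n).choose (2 * k) : ℤ) * eul k = 0) ∧
    Tendsto (fun N : ℕ => ({p : ℕ | p ≤ N ∧ p.Prime ∧ ∃ m : ℕ, 1 ≤ m ∧ 2 * m ≤ p ∧
      ((m : ℝ) ^ 2 * Real.log p ^ 3 < p * irr p m ∨
        ((m : ℝ) ^ 2 * Real.log p ^ 2 < p ∧ irr p m ≠ 0))}.ncard : ℝ) /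
        {p : ℕ | p ≤ N ∧ p.Prime}.ncard) atTop (𝓝 0) := by
  have hpi : ∀ N : ℕ, {p : ℕ | p ≤ N ∧ p.Prime}.ncard = Nat.primeCounting N := by
    intro N
    have h : {p : ℕ | p ≤ N ∧ p.Prime} = ↑((Finset.range (N + 1)).filter Nat.Prime) := by
      ext p
      simp
    rw [h, Set.ncard_coe_finset, Nat.primeCounting, Nat.primeCounting', Nat.count_eq_card_filter_range]
  refine ⟨⟨eul_zero, fun n hn => eul_sum hn⟩, ?_⟩
  have hlim := tendsto_bad.add tendsto_early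
  rw [add_zero] at hlim
  refine squeeze_zero (fun N => by positivity) (fun N => ?_) hlim
  rw [hpi, ← add_div]
  have hsub : {p : ℕ | p ≤ N ∧ p.Prime ∧ ∃ m : ℕ, 1 ≤ m ∧ 2 * m ≤ p ∧
      ((m : ℝ) ^ 2 * Real.log p ^ 3 < p * irr p m ∨
        ((m : ℝ) ^ 2 * Real.log p ^ 2 < p ∧ irr p m ≠ 0))} ⊆ ↑(bad N) ∪ ↑(early N) := by
    rintro p ⟨h1, h2, m, h3, h4, h5 | ⟨h5, h6⟩⟩
    · left
      rw [← bad_eq]
      exact ⟨h1, h2, m, h3, h4, h5⟩
    · right
      rw [← early_eq]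
      obtain ⟨n, hn⟩ := Finset.card_pos.1 (Nat.pos_of_ne_zero h6)
      obtain ⟨hn1, hn2⟩ := Finset.mem_filter.1 hn
      obtain ⟨hn3, hn4⟩ := Finset.mem_Icc.1 hn1
      refine ⟨h1, h2, n, hn3, lt_of_le_of_lt ?_ h5, hn2⟩
      have : (n : ℝ) ≤ m := by exact_mod_cast hn4
      gcongr
  have hcard : ({p : ℕ | p ≤ N ∧ p.Prime ∧ ∃ m : ℕ, 1 ≤ m ∧ 2 * m ≤ p ∧
      ((m : ℝ) ^ 2 * Real.log p ^ 3 < p * irr p m ∨
        ((m : ℝ) ^ 2 * Real.log p ^ 2 < p ∧ irr p m ≠ 0))}.ncard) ≤ (bad N).card + (early N).card := by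
    refine (Set.ncard_le_ncard hsub ((Finset.finite_toSet _).union (Finset.finite_toSet _))).trans ?_
    refine (Set.ncard_union_le _ _).trans ?_
    rw [Set.ncard_coe_finset, Set.ncard_coe_finset]
  have hcard' : (({p : ℕ | p ≤ N ∧ p.Prime ∧ ∃ m : ℕ, 1 ≤ m ∧ 2 * m ≤ p ∧
      ((m : ℝ) ^ 2 * Real.log p ^ 3 < p * irr p m ∨
        ((m : ℝ) ^ 2 * Real.log p ^ 2 < p ∧ irr p m ≠ 0))}.ncard : ℕ) : ℝ) ≤
      (bad N).card + (early N).card := by exact_mod_cast hcard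
  exact div_le_div_of_nonneg_right hcard' (by positivity)

end Pool.Agent.Results.MP_fb7e93_nt.EarlyEulerNumbers
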